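import Mathlib
import Pool.Agent.H.MP_78ccb7_gt.A

set_option autoImplicit false

namespace Pool.Agent.Results.MP_78ccb7_gt.CHNo

open Cardinal Pool.Agent.H.MP_78ccb7_gt

theorem result (hc : (𝔠 : Cardinal.{0}) = ℵ₁) : ∃ (X : Type) (_ : TopologicalSpace X), T3Space X ∧
    TP X ∧ (∃ Y : Set X, Dense Y ∧ Hur Y) ∧ ¬ Men X :=
  H.MP_78ccb7_gt.main hc

end Pool.Agent.Results.MP_78ccb7_gt.CHNo
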